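import Pool.Agent.H84.FA.Conv

/-!
# Abundance for fourfolds with nonvanishing second Chern class

THEOREM.  Let `X` be a complex projective fourfold with terminal singularities and nef `K_X` (a
minimal model), `ν` the numerical dimension of `K_X`.  If `ν = 1` or `ν = 2`, and
`c_2(X) · K_X ^ ν` is not zero, then `K_X` is semiample, and the conjecture of Campana and Peternell
holds for every smooth projective variety which is birational to `X` and for all `A`, `B`.

PROOF.  Let `f : Y → X` be a resolution which is an isomorphism outside a set of dimension at most
one, `r K_X` a line bundle, `M = f^* (r K_X)`, `r K_Y = M + E`.  We show that curves `C` with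
`M · C = 0` pass through all points of `Y`.  Then the nef dimension of `K_X` is at most three,
and `K_X` is semiample by Ambro's theorem (Nef dimension of minimal models, 2004).

(RR) Let `L = m M + H`, `H` ample and `H - K_Y` ample.  By Kodaira's vanishing theorem
`h^0(L) = χ(L)`, and Riemann-Roch gives, for large `m`,
`h^0(L) - L^4 / 24 ≥ c m ^ ν` with `c > 0`: for `ν = 2` the coefficient of `m^2` is
`c_2 M^2 / 24`, since `M^3 = 0` and `M^2 E = 0`; for `ν = 1` take `H = t A + H_1`, `A` the pullback of
an ample divisor, `t` large; the coefficient of `m` is `t c_2 M A / 12 + O(1)`, since `M^2 = 0` and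
`M A E = 0`.  On the other hand `L^4 = O(m ^ ν)`.

(W) For every closed point `x`, `h^0(L) ≤ L^4 / 24 + 4 (μ + 1)^3`, where `μ` is the largest
multiplicity at `x` of a member of `|L|`.  Indeed the valuation vectors of the sections of `L`
with respect to an infinitesimal flag at `x` are `h^0(L)` integer points of a convex body of volume
at most `L^4 / 24` contained in a cube of side `μ`.  (The semigroup of valuation vectors, the
theorem of Khovanskii, Lazarsfeld and Mustata on the volume, and the bound for the number of integer
points of a convex body are proved here for all dimensions.)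

(S) If the Seshadri constant of `L` at `x` is at least `α`, then `μ α^3 ≤ L^4`.

(E) Ein, Küchle and Lazarsfeld 1995, Theorem 3.1: if the Seshadri constants of `L` at the very
general points of a variety `W` are less than `α`, then `W` is covered by subvarieties `V` with
`L^r · V < (r α)^r`, `r = dim V ≥ 1`.

Case `ν = 1`.  Let `m = N^4`, `α = N / 5`.  If the Seshadri constant were at least `α` at some point,
then `μ = O(N^4 / N^3) = O(N)` by (S), but (W) gives `c N^4 ≤ 96 (μ + 1)^3`, a contradiction for
large `N`.  By (E), `Y` is covered by subvarieties `V` with `L^r · V ≤ (r α)^r < m`; as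
`L^r · V ≥ r m M · H^(r-1) · V` and the last number is an integer, it is zero, so `M` has degree zero
on all curves in `V`.

Case `ν = 2`, first part.  If `M^2 H^2 = 0`, the first case applies.  Otherwise let `m = N^2`,
`α = N / 5`.  As before `Y` is covered by `V` with `L^r · V ≤ (r α)^r`.  For `r = 1, 2` this is less
than `m` and we are done; `r = 4` is impossible as `L^4 ≥ 6 m^2`; for `r = 3` we get
`3 m^2 M^2 · H · V < m^2`, so `M^2 · H · V = 0`.

Case `ν = 2`, second part: the flag through `V`.  So `Y` is covered by prime divisors `V` of bounded
degree with `M^2 · H · V = 0`.  They are in finitely many numerical classes, so infinitely many of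
them are in one class.  Fix such a class, let `V ≠ V'` be two of them, so `V^2 · L^2 =
V · V' · L^2 ≥ 0`.  Take now `m = N^3`, `α = N / 4`, and suppose that the Seshadri constant of the
restriction of `L` to `V` is at least `α` at a smooth point `x` of `V`.  Consider the valuation given
by the order `b` along `V` and by an infinitesimal flag of `V` at `x`, applied to the restriction to
`V` of the section divided by the `b`-th power of the equation of `V`.  Let `μ` be the
largest multiplicity at `x` of these restrictions, `D` the corresponding divisors, of class
`L - b V`.  Then `μ α^2 ≤ (L - b V) · L^2 · V ≤ L^3 · V = 3 m M · H^2 · V + H^3 · V = O(m)`, so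
`μ = O(N)`, and `b ≤ (L · H^3) / (V · H^3) = O(m)`.  The count of integer points in the box
with sides `O(m), μ, μ, μ` gives `c N^6 = c m^2 ≤ 24 ((μ + 1)^3 + 3 (O(m) + 1) (μ + 1)^2) = O(N^5)`, a
contradiction.  By (E) for `V`, the variety `V` is covered by subvarieties `W` with `L^r · W ≤
(r α)^r < m`, on which `M` is numerically trivial.  This holds for infinitely many prime divisors
`V` with the same `m`; the union of the subvarieties of dimension `r` and degree less than `m` is
closed, it contains infinitely many prime divisors for some `r`, so it is `Y`.  QED

The proof is the one of `Pool.AB4.final`; the definitions here are the flat ones of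
`Pool.Agent.H84.FA.Defs`, the conversion is in `Pool.Agent.H84.FA.Conv`.
-/

namespace Pool.Agent.Results.MP_370cf3_ag.FourfoldAbundance

open AlgebraicGeometry CategoryTheory Pool.FA

/-- A minimal model `X` of dimension four with `K_X ^ 3 = 0` and `c_2(X) · K_X ^ 2 ≠ 0`, or with
`K_X ^ 2 = 0` and `c_2(X) · K_X ≠ 0`, has semiample canonical class, and the conjecture of Campana
and Peternell holds for every smooth projective variety birational to `X`. -/
theorem result (X Y : Scheme.{0}) [IsIntegral X] [IsLocallyNoetherian X] [IsIntegral Y]
    [IsLocallyNoetherian Y] (t : X ⟶ Spec (.of ℂ)) (f : Y ⟶ X) (s : Y ⟶ Spec (.of ℂ)) (r : ℕ)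
    (K M : Pic (geo s)) (E : Div (geo s))
    (hm : MinimalModel t f s r K M E) (hp : Published f s K M E)
    (h : ((∀ a, i4 M M M a = 0) ∧ c2 K M M ≠ 0) ∨
      ((∀ a b, i4 M M a b = 0) ∧ ∃ A, IsPullback f s A ∧ Nef A ∧ c2 K M A ≠ 0)) :
    Semiample M ∧ ∀ (Z : Scheme.{0}) [IsIntegral Z] [IsLocallyNoetherian Z]
      (u : Z ⟶ Spec (.of ℂ)), Fourfold u → Birational s u → CampanaPeternell (geo u) :=
  final t f s r K M E hm hp h

end Pool.Agent.Results.MP_370cf3_ag.FourfoldAbundance
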