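import Pool.Agent.H70.NVS.Conv

/-!
Nonvanishing (the case `A = 0`) implies the Campana-Peternell conjecture.

Let `(Y, Γ + S + Δ)` be a projective `ℚ`-factorial dlt pair over `ℂ`, `Γ` and `S` reduced and
`⌊Δ⌋ = 0`, such that `L = K_Y + Γ + S + Δ` is nef, `L` is `ℚ`-linearly equivalent to an effective
`D'` with `Supp D' = Γ`, and `L|_Γ` is semiample.  We prove that the fibration `f : Γ → Z` defined
by `L|_Γ` extends to the formal neighbourhood of `Γ` in `Y` (`FormalNbhd.exts`).  So its fibres
move in `Y`, and `κ(L)` is the numerical dimension of `L`.  By induction on the dimension,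
abundance follows from nonvanishing, and so does the Campana-Peternell conjecture.

Conventions used in the comments.  `m > 0` is sufficiently divisible, `τ` is a section of `mL` with
divisor `mD'`, `mL|_Γ = f^*H` with `H` ample on `Z`, and `f_* O_Γ = O_Z`.  `π : W → Y` is a log
resolution which is an isomorphism over the general points of the strata of `S` (Szabó), `Σ ⊂ W`
is the inverse image of `Γ`, `S_W` the strict transform of `S`, `n = dim Y`.  Since `L` and `D'` are
`ℚ`-linearly equivalent, there is a form `s` of degree `n` with values in a local system of rank one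
and of finite order, with divisor `D' - Δ` on `Y` (as a form with logarithmic poles on `Γ + S`).
All the forms below have values in this local system; they have logarithmic poles on `Σ` and
`S_W`, and along the other components they belong to the minimal extension.  A form on `W` has
order `≥ ρ` if, as a form with logarithmic poles, it vanishes on `Σ` to the order `ρπ^*D'`; `V^ρ Ω^p`
is the sheaf of the holomorphic forms of degree `p` and of order `≥ ρ`.  The positive integer `N` is
a multiple of all denominators: `V^ρ` and `O_Y(-⌈ρD'⌉)` only jump at multiples of `1/N`.  Let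
`I_k = O_Y(-⌈(k/N)D'⌉)`; thus `I_0 = O_Y`, `I_1 = O_Y(-Γ)` and `I_j I_k ⊂ I_{j+k}`.

Since `(Y, Γ + S + Δ)` is log canonical, `s` has order `≥ 1`.  Since `(Y, S + Δ)` is dlt, the
vanishing theorem of Kawamata and Viehweg (as generalised by Reid and Fukuda: every stratum of
`S_W` is birational to a stratum of `S`) gives `Rπ_*(V^{1+k/N} Ω^n) = I_k s` for `k ≥ 0`, hence the
same for `I_k/I_{k+1}` and the `k`-th graded piece.

`D` is a small Stein open subset of `Z`, which is a closed analytic subset of a polydisc with
coordinates `x_1, ..., x_r`, `r > 0`; `e_D` is a generator of `H` over `D`; `Γ_D = f⁻¹(D)`, and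
`Σ_D = π⁻¹(Γ_D)`.

The structures `FormalNbhd` (with `Extends`) and `Theory` (with `Over`, `Open`) are declared in
`Pool.Agent.H70.NVS.Defs`; every field of `Theory` is a fact or a published theorem.  The proof is in
`Pool.Agent.H70.NVS.Old`, where the fields are also described one by one, and
`Pool.Agent.H70.NVS.Conv`.
-/

namespace Pool.Agent.Results.MP_370cf3_ag.NonvanishingSuffices

open Pool.NVS

/-- Let nonvanishing hold for the smooth projective varieties of dimension `4, ..., n`, and let
`N = max(3, n)`.  Let `(X, Δ)` be klt and `K_X + Δ ~ A + B` with `A` effective and `B`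
pseudo-effective.  Then `κ(A) ≤ κ(K_X + Δ) = κ_σ(K_X + Δ)`, provided that either
`dim X - κ(A) ≤ N`, or for one `G` as in `Theory.Over` we have `dim G ≤ N`, or `dim G ≤ N + 1` and
`κ(K_X + Δ) ≥ 0`, or `Theory.Open`. -/
theorem result (T : Theory) (n : ℕ)
    (h : ∀ X, T.smooth X → 4 ≤ T.dim X → T.dim X ≤ n → T.psef X (T.K X) → T.eff X (T.K X))
    (X : T.Pair) (hX : T.klt X) (A B : T.Div X) (hA : T.eff X A) (hB : T.psef X B)
    (hK : T.K X = A + B)
    (hd : (T.dim X : WithBot ℕ) ≤ T.kod X A + (max 3 n : ℕ) ∨
      ∃ G, T.Over X A G ∧ (T.dim G ≤ max 3 n ∨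
        (T.dim G ≤ max 3 n + 1 ∧ 0 ≤ T.kod X (T.K X)) ∨ T.Open (max 3 n) G)) :
    T.kod X A ≤ T.kod X (T.K X) ∧ T.kod X (T.K X) = T.nu X (T.K X) :=
  main T n h X hX A B hA hB hK hd

end Pool.Agent.Results.MP_370cf3_ag.NonvanishingSuffices
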