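import Pool.Agent.H84.SC.Conv

/-!
Nonvanishing (the case `κ(A) = 0` of the Campana-Peternell conjecture) for varieties with
semipositive canonical bundle, or with many differential forms twisted by pluricanonical bundles,
in dimension `≤ 6` or with numerical dimension `≤ 3`.
-/

namespace Pool.Agent.Results.MP_370cf3_ag.SemipositiveCanonical

open Pool.H84.SC

/-- **Theorem.**  Let `X` be a smooth projective variety with `dim X ≤ 6` or `κ_σ(K_X) ≤ 3`.
Suppose that `K_X` is pseudo-effective and that, for some `p`, the bundle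
`(Ω¹_X)^{⊗p} ⊗ O(mK_X)` has a nonzero section for infinitely many `m > 0`; or that the canonical
bundle is hermitian semipositive and `χ(X, O(mK_X)) ≠ 0` for some integer `m`, for instance
`χ(X, O_X) ≠ 0`.  Then `κ(X) ≥ 0`. -/
theorem result (T : Theory) (X : T.Var) (hX : T.dim X ≤ 6 ∨ T.nu X ≤ 3)
    (h : (T.psef X (T.K X) ∧ ∃ p, {m : ℕ | ∃ s, T.sec X p m s ∧ s ≠ 0}.Infinite) ∨
      (T.semipos X ∧ ∃ m : ℤ, T.chi X m ≠ 0)) :
    0 ≤ T.kod X (T.K X) :=
  T.main X hX h

end Pool.Agent.Results.MP_370cf3_ag.SemipositiveCanonical
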