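import Pool.Agent.H70.TWR.Conv

/-!
The Campana-Peternell conjecture and abundance for fibre spaces over towers.

Let abundance, in the form `κ = κ_σ`, hold for the klt pairs of dimension `≤ m` with pseudo-effective
log canonical class, and for the klt pairs of dimension `≤ m'` with `κ ≥ 0`.  This is known for
`m = m' = 3`.  Let `X` be a smooth variety with pseudo-effective canonical class.  We prove
`κ(X) = κ_σ(X)` in the following cases.

* `X ⇢ W` is a fibration over a tower `W` whose very general fibre `E` satisfies `κ(E) = κ_σ(E)`.
* `X` is covered by subvarieties `Z` with `κ(Z) = κ_σ(Z)` and `κ(Z) + codim Z ≤ m`.  So if `X` of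
  dimension `m + 1` has not this property, then all proper subvarieties of positive dimension through
  very general points of `X` are of general type.
* `π₁(X)` has a linear representation such that `κ(F) = κ_σ(F)` for a very general fibre `F` of the
  Shafarevich map.

The class `Theory.Tower m m'` is the smallest class of smooth varieties which contains the blocks and
is closed under finite étale quotients and under extensions: it contains `X` if it contains the base
and a very general fibre of a fibration of `X`.  The blocks (`Theory.Block`) contain

* the varieties of dimension `≤ m` which are not uniruled,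
* the varieties with `κ ≥ 0` and `dim - κ ≤ m'`, for instance those of general type,
* the varieties of maximal Albanese dimension, and those with `κ ≥ 0` whose Iitaka fibration has
  fibres birational to abelian varieties.

So the Campana-Peternell conjecture holds for `K_X ~ A + B` if `X`, or a very general fibre of the
Iitaka fibration of `A`, is as in one of the three cases above.

The published theorems used are fields of the structures below.

Conventions.  Varieties are projective over `ℂ`.  Smooth varieties which are isomorphic as schemes
(that is, conjugate under an automorphism of `ℂ`) have the same invariants, and are identified in the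
relations `Map`, `Cov`, `Et`, `Lin` below; a very general fibre is isomorphic, as a scheme, to the
geometric generic fibre, for an isomorphism of `ℂ` with an algebraic closure of the function field
of the base.

The structure `Theory` and the definitions `Over`, `Light`, `Block`, `Tower`, `Good` are declared in
`Pool.Agent.H70.TWR.Defs`.  The proof is in `Pool.Agent.H70.TWR.Old`, where the fields of `Theory` are
also described one by one, and `Pool.Agent.H70.TWR.Conv`.
-/

namespace Pool.Agent.Results.MP_370cf3_ag.Towers

open Pool.TWR

/-- Let abundance, in the form `κ = κ_σ`, hold for the klt pairs of dimension `4, ..., m` with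
pseudo-effective log canonical class, and for the klt pairs of dimension `4, ..., m'` with `κ ≥ 0`.
Let `X` be smooth and `K_X ~ A + B` with `A` effective and `B` pseudo-effective.  Then
`κ(A) ≤ κ(X) = κ_σ(X)` if `X` is as in `Theory.Good`, or if a very general fibre `G` of the Iitaka
fibration of `A`, or of a fibration of such a fibre over a variety of maximal Albanese dimension,
is as in `Theory.Good`, for `max(3, m)` and `max(3, m')`. -/
theorem result (T : Theory) (m m' : ℕ)
    (h : ∀ C, 4 ≤ T.dim C → T.dim C ≤ m → T.psef C (T.K C) → T.kod C (T.K C) = T.nu C (T.K C))
    (h' : ∀ C, 4 ≤ T.dim C → T.dim C ≤ m' → T.eff C (T.K C) → T.kod C (T.K C) = T.nu C (T.K C))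
    (X : T.Pair) (hX : T.smooth X) (A B : T.Div X) (hA : T.eff X A) (hB : T.psef X B)
    (hK : T.K X = A + B)
    (hF : T.Good (max 3 m) (max 3 m') X ∨
      ∃ G, T.Over X A G ∧ T.Good (max 3 m) (max 3 m') G) :
    T.kod X A ≤ T.kod X (T.K X) ∧ T.kod X (T.K X) = T.nu X (T.K X) :=
  main T m m' h h' X hX A B hA hB hK hF

end Pool.Agent.Results.MP_370cf3_ag.Towers
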